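import Pool.Agent.Y269.EL.Stm2
import Pool.Agent.Helper133.BUProd

/-! EL-BUK: Borsuk-Ulam for infinite products of Euclidean spheres with a depth order. -/

set_option autoImplicit false

namespace Pool.Agent.Y563.EL

open Filter Topology Set
open Pool.Agent.Y269.EL
open Pool.Agent.Helper133.BT (Om PP triangular sgn)
open Pool.Agent.Helper133.BU (K)

/-- radial projection to the round sphere -/
noncomputable def nrm (n : ℕ) (y : Fin (n + 1) → ℝ) : ℕ → ℝ :=
  fun j => if h : j < n + 1 then y ⟨j, h⟩ / √(∑ i, y i ^ 2) else 0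

theorem sq_pos {n : ℕ} {y : Fin (n + 1) → ℝ} (hy : y ∈ K n) : 0 < ∑ i, y i ^ 2 := by
  have h0 : 0 ≤ ∑ i, y i ^ 2 := Finset.sum_nonneg fun i _ => sq_nonneg _
  rcases h0.lt_or_eq with h | h
  · exact h
  · exfalso
    have h1 := (Finset.sum_eq_zero_iff_of_nonneg fun i _ => sq_nonneg (y i)).1 h.symm
    have h2 : ∑ i, |y i| = 0 := Finset.sum_eq_zero fun i hi => by
      have := h1 i hi
      rw [pow_eq_zero_iff two_ne_zero] at this
      rw [this, abs_zero]
    have h3 : ∑ i, |y i| = 1 := hy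
    rw [h2] at h3
    exact zero_ne_one h3

theorem nrm_mem {n : ℕ} {y : Fin (n + 1) → ℝ} (hy : y ∈ K n) : nrm n y ∈ sph n := by
  have h0 := sq_pos hy
  refine ⟨fun i hi => dif_neg (by omega), ?_⟩
  rw [Finset.sum_range]
  have h1 : ∀ i : Fin (n + 1), nrm n y (i : ℕ) ^ 2 = y i ^ 2 / ∑ i, y i ^ 2 := by
    intro i
    unfold nrm
    rw [dif_pos i.2, div_pow, Real.sq_sqrt h0.le]
  rw [Finset.sum_congr rfl fun i _ => h1 i, ← Finset.sum_div, div_self h0.ne']

theorem nrm_neg (n : ℕ) (y : Fin (n + 1) → ℝ) : nrm n (-y) = -nrm n y := by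
  funext j
  unfold nrm
  by_cases h : j < n + 1
  · simp only [dif_pos h, Pi.neg_apply, neg_sq, neg_div]
  · simp only [dif_neg h, Pi.neg_apply, neg_zero]

theorem nrm_cont (n : ℕ) : ContinuousOn (nrm n) (K n) := by
  rw [continuousOn_pi]
  intro j
  unfold nrm
  by_cases h : j < n + 1
  · simp only [dif_pos h]
    apply ContinuousOn.div
    · fun_prop
    · fun_prop
    · intro y hy
      exact (Real.sqrt_pos.2 (sq_pos hy)).ne'
  · simp only [dif_neg h]
    exact continuousOn_const

theorem e0_mem (n : ℕ) : (fun j : ℕ => if j = 0 then (1 : ℝ) else 0) ∈ sph n := by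
  refine ⟨fun i hi => if_neg (by omega), ?_⟩
  rw [Finset.sum_eq_single 0]
  · simp
  · intro i _ hi
    simp [hi]
  · simp

theorem sph_compact (n : ℕ) : IsCompact (sph n) := by
  have h1 : IsCompact (Set.pi Set.univ (fun _ : ℕ => Icc (-1 : ℝ) 1)) :=
    isCompact_univ_pi fun _ => isCompact_Icc
  refine h1.of_isClosed_subset ?_ ?_
  · have h2 : sph n = (⋂ i : ℕ, {s : ℕ → ℝ | n < i → s i = 0}) ∩
        {s | ∑ i ∈ Finset.range (n + 1), s i ^ 2 = 1} := by
      ext s
      simp [sph]
    rw [h2]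
    apply IsClosed.inter
    · apply isClosed_iInter
      intro i
      by_cases h : n < i
      · simp only [h, true_imp_iff]
        exact isClosed_eq (by fun_prop) continuous_const
      · simp [h]
    · exact isClosed_eq (by fun_prop) continuous_const
  · intro s hs i _
    by_cases h : n < i
    · rw [hs.1 i h]
      constructor <;> norm_num
    · have h3 : s i ^ 2 ≤ 1 := by
        rw [← hs.2]
        exact Finset.single_le_sum (f := fun i => s i ^ 2) (fun j _ => sq_nonneg _)
          (Finset.mem_range.2 (by omega))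
      rw [mem_Icc, ← abs_le]
      exact (sq_le_one_iff_abs_le_one _).1 h3

theorem XX_compact (d : ℕ → ℕ) : IsCompact (XX d) := by
  have : XX d = Set.pi Set.univ (fun k => sph (d k)) := by
    ext w
    simp [XX]
  rw [this]
  exact isCompact_univ_pi fun k => sph_compact (d k)

/-- the point of the product of round spheres -/
noncomputable def Th (d : ℕ → ℕ) (K0 : Finset ℕ) (σ τ : ℕ → ℕ) (v : Om (fun i => d (σ i))) : Pt :=
  fun k => if k ∈ K0 then nrm (d (σ (τ k))) (v (τ k)) else fun j => if j = 0 then 1 else 0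

theorem Th_mem {d : ℕ → ℕ} {K0 : Finset ℕ} {σ τ : ℕ → ℕ} (hτ : ∀ k ∈ K0, σ (τ k) = k)
    {v : Om (fun i => d (σ i))} (hv : v ∈ PP (fun i => d (σ i))) : Th d K0 σ τ v ∈ XX d := by
  intro k
  unfold Th
  split_ifs with h
  · have h1 := nrm_mem (hv (τ k))
    simp only at h1
    have h2 : d (σ (τ k)) = d k := by rw [hτ k h]
    rw [← h2]
    exact h1
  · exact e0_mem _

theorem Th_cont (d : ℕ → ℕ) (K0 : Finset ℕ) (σ τ : ℕ → ℕ) :
    ContinuousOn (Th d K0 σ τ) (PP (fun i => d (σ i))) := by
  rw [continuousOn_pi]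
  intro k
  unfold Th
  by_cases h : k ∈ K0
  · simp only [if_pos h]
    exact (nrm_cont (d (σ (τ k)))).comp (by fun_prop) (fun v hv => hv (τ k))
  · simp only [if_neg h]
    exact continuousOn_const

theorem Th_flp {d : ℕ → ℕ} {K0 : Finset ℕ} {σ τ : ℕ → ℕ} {i : ℕ} (hi : σ i ∈ K0)
    (hτi : τ (σ i) = i) (hτ : ∀ k ∈ K0, σ (τ k) = k) (v : Om (fun i => d (σ i))) :
    Th d K0 σ τ (Pool.Agent.Helper133.BT.flp (fun i => d (σ i)) i v) =
      flp (σ i) (Th d K0 σ τ v) := by
  funext k
  unfold Th flp Pool.Agent.Helper133.BT.flp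
  by_cases hk : k = σ i
  · subst hk
    rw [Function.update_self]
    simp only [if_pos hi]
    have key : ∀ m, m = i → nrm (d (σ m)) (Function.update v i (-v i) m) =
        -nrm (d (σ m)) (v m) := by
      rintro _ rfl
      rw [Function.update_self, nrm_neg]
    exact key _ hτi
  · rw [Function.update_of_ne hk]
    by_cases hK : k ∈ K0
    · rw [if_pos hK, if_pos hK, Function.update_of_ne]
      intro h
      apply hk
      rw [← hτ k hK, h]
    · rw [if_neg hK, if_neg hK]

/-- an enumeration in the order of the depth -/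
theorem exists_enum (K0 : Finset ℕ) (dep : ℕ → ℕ) : ∃ σ τ : ℕ → ℕ,
    (∀ i < K0.card, σ i ∈ K0 ∧ τ (σ i) = i) ∧ (∀ k ∈ K0, σ (τ k) = k ∧ τ k < K0.card) ∧
    ∀ i j, i ≤ j → j < K0.card → dep (σ i) ≤ dep (σ j) := by
  classical
  obtain ⟨e, he⟩ : ∃ e : Fin K0.card ≃ K0, Monotone fun i => dep (e i) :=
    ⟨(Tuple.sort fun i => dep (K0.equivFin.symm i)).trans K0.equivFin.symm,
      Tuple.monotone_sort (fun i => dep (K0.equivFin.symm i))⟩
  refine ⟨fun i => if h : i < K0.card then (e ⟨i, h⟩ : ℕ) else 0,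
    fun k => if h : k ∈ K0 then ((e.symm ⟨k, h⟩ : Fin K0.card) : ℕ) else 0, ?_, ?_, ?_⟩
  · intro i hi
    simp only [dif_pos hi]
    refine ⟨(e ⟨i, hi⟩).2, ?_⟩
    rw [dif_pos (e ⟨i, hi⟩).2]
    simp
  · intro k hk
    simp only [dif_pos hk]
    refine ⟨?_, (e.symm ⟨k, hk⟩).2⟩
    rw [dif_pos (e.symm ⟨k, hk⟩).2]
    simp
  · intro i j hij hj
    simp only [dif_pos hj, dif_pos (lt_of_le_of_lt hij hj)]
    exact he (show (⟨i, lt_of_le_of_lt hij hj⟩ : Fin K0.card) ≤ ⟨j, hj⟩ from hij)

theorem buk : BUStmt := by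
  classical
  intro d cap dep an hd hcap hself hdep htr I l J F hl hJ hcount hF hpar
  have hcomp := XX_compact d
  have hclosed : ∀ r, IsClosed (XX d ∩ F r ⁻¹' {0}) := fun r =>
    (hF r).preimage_isClosed_of_isClosed hcomp.isClosed isClosed_singleton
  suffices h : ∀ R0 : Finset I, (XX d ∩ ⋂ r ∈ R0, (XX d ∩ F r ⁻¹' {0})).Nonempty by
    obtain ⟨w, hw1, hw2⟩ := hcomp.inter_iInter_nonempty _ hclosed h
    exact ⟨w, hw1, fun r => (mem_iInter.1 hw2 r).2⟩
  intro R0
  obtain ⟨K0, hK0⟩ : ∃ K0 : Finset ℕ, K0 = R0.biUnion fun r => an (l r) := ⟨_, rfl⟩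
  obtain ⟨σ, τ, hσ, hτ, hmon⟩ := exists_enum K0 dep
  have hτ' : ∀ k ∈ K0, σ (τ k) = k := fun k hk => (hτ k hk).1
  -- the rows
  obtain ⟨Ri, hRi⟩ : ∃ Ri : ℕ → Finset I, Ri = fun i => R0.filter fun r => l r = σ i := ⟨_, rfl⟩
  have hRm : ∀ i r, r ∈ Ri i ↔ r ∈ R0 ∧ l r = σ i := by
    intro i r
    rw [hRi, Finset.mem_filter]
  have hRc : ∀ i, (Ri i).card ≤ cap (σ i) := by
    intro i
    have h1 := hcount (σ i)
    have h2 : ((Ri i : Finset I) : Set I) ⊆ {r | l r = σ i} := by
      intro r hr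
      exact ((hRm i r).1 hr).2
    have h3 := (Set.encard_le_encard h2).trans h1
    rw [Set.encard_coe_eq_coe_finsetCard] at h3
    exact_mod_cast h3
  obtain ⟨row, hrow⟩ : ∃ row : ∀ i r : ℕ, r / 2 < (Ri i).card → I,
      row = fun i r h => ((Ri i).equivFin.symm ⟨r / 2, h⟩ : I) := ⟨_, rfl⟩
  have hrowm : ∀ i r h, row i r h ∈ Ri i := by
    intro i r h
    rw [hrow]
    exact ((Ri i).equivFin.symm ⟨r / 2, h⟩).2
  obtain ⟨f, hf⟩ : ∃ f : ℕ → ℕ → Om (fun i => d (σ i)) → ℝ, f = fun i r v =>
      if h : r / 2 < (Ri i).card then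
        (if r % 2 = 0 then (F (row i r h) (Th d K0 σ τ v)).re
          else (F (row i r h) (Th d K0 σ τ v)).im)
      else v i 0 := ⟨_, rfl⟩
  obtain ⟨p, hp⟩ : ∃ p : ℕ → ℕ → ℕ → ZMod 2, p = fun i r k =>
      if k = i then 1 else if k < i ∧ ∃ h : r / 2 < (Ri i).card, σ k ∈ J (row i r h) then 1 else 0 :=
    ⟨_, rfl⟩
  have hs1 : sgn 1 = -1 := by simp [sgn]
  have hs0 : sgn 0 = 1 := by simp [sgn]
  obtain ⟨v, hv, hz⟩ := triangular (fun i => d (σ i)) (fun i => hd _) K0.card p
    (fun i r => by rw [hp]; simp) (fun i r k hik => by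
      rw [hp]
      simp only
      rw [if_neg (by omega), if_neg]
      rintro ⟨h, _⟩
      omega) f (fun i r => by
      rw [hf]
      simp only
      by_cases h : r / 2 < (Ri i).card
      · simp only [dif_pos h]
        have h1 : ContinuousOn (fun v => F (row i r h) (Th d K0 σ τ v)) (PP fun i => d (σ i)) :=
          (hF _).comp (Th_cont d K0 σ τ) (fun v hv => Th_mem hτ' hv)
        split_ifs
        · exact Complex.continuous_re.comp_continuousOn h1
        · exact Complex.continuous_im.comp_continuousOn h1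
      · simp only [dif_neg h]
        fun_prop) (fun i hi r hr k hk v hv => by
      have hσk := hσ k hk
      have hσi := hσ i hi
      rw [hf]
      simp only
      by_cases h : r / 2 < (Ri i).card
      · simp only [dif_pos h]
        rw [Th_flp hσk.1 hσk.2 hτ', hpar _ _ (Th_mem hτ' hv)]
        have hrm := (hRm i _).1 (hrowm i r h)
        have hpk : sg (J (row i r h)) (σ k) = ((sgn (p i r k) : ℝ) : ℂ) := by
          unfold sg
          rw [hp]
          simp only
          rcases lt_trichotomy k i with hki | hki | hki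
          · rw [if_neg hki.ne]
            by_cases h2 : σ k ∈ J (row i r h)
            · rw [if_pos h2, if_pos ⟨hki, h, h2⟩, hs1]
              simp
            · rw [if_neg h2, if_neg, hs0]
              · simp
              · rintro ⟨_, _, h3⟩
                exact h2 h3
          · subst hki
            have h2 : σ k ∈ J (row k r h) := by
              rw [← hrm.2]
              exact hl _
            rw [if_pos h2, if_pos rfl, hs1]
            simp
          · have hnJ : σ k ∉ J (row i r h) := by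
              intro h2
              have h3 := hJ _ h2
              rw [hrm.2] at h3
              have h4 : σ k ≠ σ i := by
                intro h5
                have h6 := hσk.2
                rw [h5, hσi.2] at h6
                omega
              have h5 := hdep _ _ h3 h4
              have h6 := hmon i k hki.le hk
              omega
            rw [if_neg hnJ, if_neg hki.ne', if_neg (fun h => by omega), hs0]
            simp
        rw [hpk]
        split_ifs
        · rw [Complex.re_ofReal_mul]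
        · rw [Complex.im_ofReal_mul]
      · simp only [dif_neg h]
        unfold Pool.Agent.Helper133.BT.flp
        rw [hp]
        simp only
        by_cases hki : k = i
        · subst hki
          rw [if_pos rfl, hs1, Function.update_self]
          simp
        · rw [if_neg hki, if_neg, hs0, Function.update_of_ne (Ne.symm hki), one_mul]
          rintro ⟨_, h3, _⟩
          exact h h3)
  refine ⟨Th d K0 σ τ v, Th_mem hτ' hv, ?_⟩
  simp only [mem_iInter]
  intro ρ hρ
  refine ⟨Th_mem hτ' hv, ?_⟩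
  have hlK : l ρ ∈ K0 := by
    rw [hK0, Finset.mem_biUnion]
    exact ⟨ρ, hρ, hself _⟩
  obtain ⟨i, hi⟩ : ∃ i, i = τ (l ρ) := ⟨_, rfl⟩
  have hi1 : σ i = l ρ := by rw [hi]; exact hτ' _ hlK
  have hi2 : i < K0.card := by rw [hi]; exact (hτ _ hlK).2
  have hρi : ρ ∈ Ri i := (hRm i ρ).2 ⟨hρ, hi1.symm⟩
  obtain ⟨j, hj⟩ : ∃ j : Fin (Ri i).card, j = (Ri i).equivFin ⟨ρ, hρi⟩ := ⟨_, rfl⟩
  have hj1 : ∀ (r : ℕ) (h : r / 2 < (Ri i).card), r / 2 = j → row i r h = ρ := by
    intro r h hrj
    rw [hrow]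
    simp only
    have : (⟨r / 2, h⟩ : Fin (Ri i).card) = j := Fin.ext hrj
    rw [this, hj]
    simp
  have hjb : 2 * (j : ℕ) + 1 < d (σ i) := by
    have h1 := hRc i
    have h2 := hcap (σ i)
    have h3 := j.2
    omega
  have hre := hz i hi2 (2 * j) (by show _ < d (σ i); omega)
  have him := hz i hi2 (2 * j + 1) (by show _ < d (σ i); omega)
  rw [hf] at hre him
  simp only at hre him
  have e1 : 2 * (j : ℕ) / 2 = j := by omega
  have e2 : (2 * (j : ℕ) + 1) / 2 = j := by omega
  rw [dif_pos (by rw [e1]; exact j.2), if_pos (by omega), hj1 _ _ e1] at hre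
  rw [dif_pos (by rw [e2]; exact j.2), if_neg (by omega), hj1 _ _ e2] at him
  show F ρ (Th d K0 σ τ v) = 0
  exact Complex.ext hre him

end Pool.Agent.Y563.EL
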